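import Pool.Agent.Q220.TruthTree.Basic

namespace Pool.Agent.Results.MP_dcacc7_lc.NotAcceptable

open Q220.TruthTree

/-- The classical truth value of a formula, the arrow being read as material implication. -/
def eval (v : ℕ → Bool) : Form → Bool
  | .letter n => v n
  | .neg φ => !(eval v φ)
  | .and φ ψ => eval v φ && eval v ψ
  | .or φ ψ => eval v φ || eval v ψ
  | .imp φ ψ => !(eval v φ) || eval v ψ

/-- Material tautologies: true under all valuations, the arrow being read materially. -/
def MaterialTautology (φ : Form) : Prop := ∀ v : ℕ → Bool, eval v φ = true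

/-- Some material tautology is not acceptable, namely `(p ∧ ¬p) → q`. -/
theorem result : ∃ φ : Form, MaterialTautology φ ∧ φ ∉ Acceptable := by
  refine ⟨.imp (.and (.letter 0) (.neg (.letter 0))) (.letter 1), ?_, ?_⟩
  · intro v
    simp only [eval]
    cases v 0 <;> simp
  · intro h
    obtain ⟨n, h1, h2⟩ := letter_sharing _ _ h
    have h3 : n = 1 := h2
    rcases h1 with h1 | h1
    · have h4 : n = 0 := h1
      omega
    · have h4 : n = 0 := h1
      omega

end Pool.Agent.Results.MP_dcacc7_lc.NotAcceptable
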